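import Mathlib

namespace Pool.Agent.H.MP_5ae901_lc

open Set

theorem countable_adjoin {R : Type} [CommRing R] [Countable R] [Algebra R ℂ] {s : Set ℂ}
    (hs : s.Countable) : Countable (Algebra.adjoin R s) := by
  have := hs.to_subtype
  rw [← Cardinal.mk_le_aleph0_iff]
  refine (Algebra.cardinalMk_adjoin_le R s).trans ?_
  simp

theorem pick {R : Type} [CommRing R] [Countable R] [Algebra R ℂ] {s S : Set ℂ}
    (hs : s.Countable) (hS : ¬ S.Countable) :
    ∃ z ∈ S, Transcendental (Algebra.adjoin R s) z := by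
  have := countable_adjoin (R := R) hs
  by_contra h
  push Not at h
  refine hS ((Algebraic.countable (Algebra.adjoin R s) ℂ).mono fun z hz => ?_)
  have := h z hz
  simpa [Transcendental] using this

theorem exists_indep {R : Type} [CommRing R] [Countable R] [Algebra R ℂ]
    (hinj : Function.Injective (algebraMap R ℂ)) (G : Set ℂ) (U : ℕ → ℂ → Set ℂ)
    (hG : ¬ G.Countable) (hU : ∀ n, ∀ x ∈ G, ¬ (U n x).Countable) :
    ∃ v : ℕ → ℂ, AlgebraicIndependent R v ∧ v 0 ∈ G ∧ ∀ n, v (n + 1) ∈ U n (v 0) := by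
  classical
  let W : ℕ → ℂ → Set ℂ := fun n x => Nat.casesOn n G fun m => if x ∈ G then U m x else G
  have hW : ∀ n x, ¬ (W n x).Countable := fun n x => by
    cases n with
    | zero => exact hG
    | succ m =>
      by_cases h : x ∈ G
      · simpa [W, h] using hU m x h
      · simpa [W, h] using hG
  have hp : ∀ (g : ℕ → ℂ) (n : ℕ), ∃ z ∈ W n (g 0),
      Transcendental (Algebra.adjoin R (g '' Iio n)) z := fun g n =>
    pick ((Set.to_countable _).image g) (hW n _)
  choose p hp1 hp2 using hp
  let f : ℕ → ℕ → ℂ := fun n => Nat.rec (fun _ => 0) (fun n g => Function.update g n (p g n)) n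
  let v : ℕ → ℂ := fun n => p (f n) n
  have hf : ∀ m, ∀ i < m, f m i = v i := fun m => by
    induction m with
    | zero => intro i hi; omega
    | succ m ih =>
      intro i hi
      change Function.update (f m) m (p (f m) m) i = v i
      by_cases h : i = m
      · subst h; simp [v]
      · rw [Function.update_of_ne h]; exact ih i (by omega)
  have h0 : v 0 ∈ G := hp1 (f 0) 0
  refine ⟨v, ?_, h0, fun n => ?_⟩
  · have hn : ∀ n, AlgebraicIndepOn R v (Iio n) := fun n => by
      induction n with
      | zero =>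
        have : IsEmpty (Iio (0 : ℕ)) := ⟨fun x => absurd x.2 (Nat.not_lt_zero _)⟩
        exact algebraicIndependent_empty_type_iff.mpr hinj
      | succ n ih =>
        have h1 : Iio (n + 1) = insert n (Iio n) := by ext; simp
        rw [h1]
        refine ih.insert ?_
        have h2 : v '' Iio n = f n '' Iio n := Set.image_congr fun i hi => (hf n i hi).symm
        rw [h2]
        exact hp2 (f n) n
    refine algebraicIndependent_of_finite_type fun t ht => ?_
    obtain ⟨n, hn2⟩ := ht.bddAbove
    exact (hn (n + 1)).mono fun i hi => Nat.lt_succ_of_le (hn2 hi)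
  · have := hp1 (f (n + 1)) (n + 1)
    rw [hf (n + 1) 0 (by omega)] at this
    simpa [W, h0] using this

/-- the quadratic map -/
def qm (x : ℝ) : ℝ := x * x - 6

/-- sign of a bit -/
def sg (b : Bool) : ℝ := if b then 1 else -1

theorem exists_sign (ε : ℕ → Bool) : ∃ x : ℝ, ∀ n, 1 ≤ sg (ε n) * qm^[n] x := by
  have hfin : ∀ N (ε : ℕ → Bool), ∃ x ∈ Icc (-3 : ℝ) 3, ∀ n < N, 1 ≤ sg (ε n) * qm^[n] x := by
    intro N
    induction N with
    | zero => exact fun _ => ⟨0, by norm_num, fun n hn => by omega⟩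
    | succ N ih =>
      intro ε
      obtain ⟨y, hy, h⟩ := ih fun n => ε (n + 1)
      have h6 : 0 ≤ 6 + y := by linarith [hy.1]
      have hs : sg (ε 0) * sg (ε 0) = 1 := by unfold sg; split_ifs <;> norm_num
      have h1 : 1 ≤ √(6 + y) := Real.le_sqrt_of_sq_le (by linarith [hy.1])
      have h3 : √(6 + y) ≤ 3 := Real.sqrt_le_iff.2 ⟨by norm_num, by linarith [hy.2]⟩
      have hq : qm (sg (ε 0) * √(6 + y)) = y := by
        unfold qm
        have := Real.mul_self_sqrt h6
        linear_combination (√(6 + y) * √(6 + y)) * hs + this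
      refine ⟨sg (ε 0) * √(6 + y), ?_, fun n hn => ?_⟩
      · unfold sg; split_ifs <;> constructor <;> linarith
      · cases n with
        | zero => simpa [← mul_assoc, hs] using h1
        | succ n => rw [Function.iterate_succ_apply, hq]; exact h n (by omega)
  have hc : Continuous qm := by unfold qm; fun_prop
  let C : ℕ → Set ℝ := fun N => Icc (-3 : ℝ) 3 ∩ ⋂ n < N, {x | 1 ≤ sg (ε n) * qm^[n] x}
  have hcl : ∀ N, IsClosed (C N) := fun N => isClosed_Icc.inter (isClosed_iInter fun n =>
    isClosed_iInter fun _ => isClosed_le continuous_const (continuous_const.mul (hc.iterate n)))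
  obtain ⟨x, hx⟩ := IsCompact.nonempty_iInter_of_sequence_nonempty_isCompact_isClosed C
    (fun N x hx => ⟨hx.1, mem_iInter₂.2 fun n hn => mem_iInter₂.1 hx.2 n (by omega)⟩)
    (fun N => by
      obtain ⟨x, hx, h⟩ := hfin N ε
      exact ⟨x, hx, mem_iInter₂.2 h⟩)
    (isCompact_Icc.of_isClosed_subset (hcl 0) inter_subset_left) hcl
  exact ⟨x, fun n => mem_iInter₂.1 (mem_iInter.1 hx (n + 1)).2 n (by omega)⟩

theorem uncountable_sign (δ : ℕ → Bool) :
    ¬ {z : ℂ | ∃ x : ℝ, z = x ∧ ∀ n, 1 ≤ sg (δ n) * qm^[2 * n] x}.Countable := by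
  intro h
  choose X hX using fun η : ℕ → Bool =>
    exists_sign fun n => if n % 2 = 0 then δ (n / 2) else η (n / 2)
  have hinj : Function.Injective fun η => (X η : ℂ) := fun η η' h => by
    funext n
    have h0 : X η = X η' := by simpa using h
    have h1 := hX η (2 * n + 1)
    have h2 := hX η' (2 * n + 1)
    have e1 : (2 * n + 1) % 2 = 1 := by omega
    have e2 : (2 * n + 1) / 2 = n := by omega
    simp only [e1, e2, one_ne_zero, if_false] at h1 h2
    rw [h0] at h1
    revert h1 h2
    unfold sg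
    cases η n <;> cases η' n <;> simp <;> intro h1 <;> linarith
  have hsub : range (fun η => (X η : ℂ)) ⊆
      {z : ℂ | ∃ x : ℝ, z = x ∧ ∀ n, 1 ≤ sg (δ n) * qm^[2 * n] x} := by
    rintro _ ⟨η, rfl⟩
    refine ⟨X η, rfl, fun n => ?_⟩
    have h1 := hX η (2 * n)
    simpa using h1
  have h2 : Countable (ℕ → Bool) := by
    have := (h.mono hsub).to_subtype
    exact (Equiv.ofInjective _ hinj).countable_iff.2 this
  rw [← Cardinal.mk_le_aleph0_iff] at h2
  simp only [Cardinal.mk_pi, Cardinal.prod_const, Cardinal.mk_bool, Cardinal.lift_id,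
    Cardinal.mk_nat, Cardinal.two_power_aleph0] at h2
  exact absurd h2 (not_le.2 Cardinal.aleph0_lt_continuum)

theorem uncountable_circle {r : ℝ} (hr : 0 < r) :
    ¬ {z : ℂ | z * (starRingEnd ℂ) z = r}.Countable := by
  intro h
  let φ : ℝ → ℂ := fun t => ⟨t, √(r - t * t)⟩
  have h1 : φ '' Icc 0 (√r) ⊆ {z : ℂ | z * (starRingEnd ℂ) z = r} := by
    rintro _ ⟨t, ht, rfl⟩
    have h2 : t * t ≤ r := by
      have := mul_self_le_mul_self ht.1 ht.2
      rwa [Real.mul_self_sqrt hr.le] at this
    have h3 := Real.mul_self_sqrt (sub_nonneg.2 h2)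
    simp only [mem_ofPred_eq, Complex.mul_conj, Complex.normSq_apply, φ, Complex.ofReal_inj]
    linarith
  have h2 : (Icc 0 (√r)).Countable :=
    countable_of_injective_of_countable_image (f := φ)
      (fun a _ b _ hab => congrArg Complex.re hab) (h.mono h1)
  have h3 : 0 < √r := Real.sqrt_pos.2 hr
  have := Cardinal.mk_Icc_real h3
  rw [← Cardinal.le_aleph0_iff_set_countable, this] at h2
  exact absurd h2 (not_le.2 Cardinal.aleph0_lt_continuum)

end Pool.Agent.H.MP_5ae901_lc
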