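import Pool.Agent.Lib.helper13.PR

namespace Pool.Agent.H.MP_5ae901_lc

open Pool.Agent.Lib.PR Complex MvPolynomial

attribute [local irreducible] Primrec Computable

/-- monomial codes: a power of the imaginary unit and a list of variables -/
abbrev Mo := ℕ × List ℕ
/-- polynomial codes -/
abbrev Po := List Mo
/-- fraction codes -/
abbrev Fr := Po × Po

/-- value of a monomial code -/
noncomputable def mv (v : ℕ → ℂ) (m : Mo) : ℂ := I ^ m.1 * (m.2.map v).prod
/-- value of a polynomial code -/
noncomputable def pv (v : ℕ → ℂ) (p : Po) : ℂ := (p.map (mv v)).sum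
/-- value of a fraction code -/
noncomputable def fv (v : ℕ → ℂ) (c : Fr) : ℂ := pv v c.1 / pv v c.2

/-- product of polynomial codes -/
def pmul (p q : Po) : Po := p.flatMap fun m => q.map fun n => (m.1 + n.1, m.2 ++ n.2)
/-- negation of a polynomial code -/
def pneg (p : Po) : Po := p.map fun m => (m.1 + 2, m.2)

/-- same multiset of variables -/
def Same (l l' : List ℕ) : Prop :=
  ∀ x ∈ l ++ l', l.countP (fun y => cd (y = x)) = l'.countP (fun y => cd (y = x))

/-- number of monomials with given variables and given power modulo four -/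
noncomputable def cnt (p : Po) (l : List ℕ) (k : ℕ) : ℕ :=
  p.countP fun m => cd (m.1 % 4 = k ∧ Same m.2 l)

/-- formal vanishing -/
def Z (p : Po) : Prop := ∀ m ∈ p, cnt p m.2 0 = cnt p m.2 2 ∧ cnt p m.2 1 = cnt p m.2 3

variable {α : Type} [Primcodable α]

@[fun_prop] theorem p_pmul {f g : α → Po} (hf : Primrec f) (hg : Primrec g) :
    Primrec fun a => pmul (f a) (g a) := by unfold pmul; fun_prop
@[fun_prop] theorem p_pneg {f : α → Po} (hf : Primrec f) :
    Primrec fun a => pneg (f a) := by unfold pneg; fun_prop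
@[fun_prop] theorem p_Same {f g : α → List ℕ} (hf : Primrec f) (hg : Primrec g) :
    Primrec fun a => cd (Same (f a) (g a)) := by unfold Same; fun_prop
@[fun_prop] theorem p_cnt {f : α → Po} {g : α → List ℕ} {k : α → ℕ} (hf : Primrec f)
    (hg : Primrec g) (hk : Primrec k) : Primrec fun a => cnt (f a) (g a) (k a) := by
  unfold cnt; fun_prop
@[fun_prop] theorem p_Z {f : α → Po} (hf : Primrec f) : Primrec fun a => cd (Z (f a)) := by
  unfold Z; fun_prop

variable (v : ℕ → ℂ)

@[simp] theorem pv_nil : pv v [] = 0 := rfl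
@[simp] theorem pv_cons (m : Mo) (p : Po) : pv v (m :: p) = mv v m + pv v p := by simp [pv]
@[simp] theorem pv_append (p q : Po) : pv v (p ++ q) = pv v p + pv v q := by simp [pv]
@[simp] theorem pv_neg (p : Po) : pv v (pneg p) = - pv v p := by
  induction p with
  | nil => simp [pneg]
  | cons m p ih =>
    have : pneg (m :: p) = (m.1 + 2, m.2) :: pneg p := rfl
    rw [this, pv_cons, pv_cons, ih]
    simp only [mv, pow_add, I_sq]
    ring
@[simp] theorem pv_mul (p q : Po) : pv v (pmul p q) = pv v p * pv v q := by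
  induction p with
  | nil => simp [pmul]
  | cons m p ih =>
    have : pmul (m :: p) q = (q.map fun n => (m.1 + n.1, m.2 ++ n.2)) ++ pmul p q := rfl
    rw [this, pv_append, ih, pv_cons, add_mul]
    congr 1
    clear this ih
    induction q with
    | nil => simp
    | cons n q ih2 =>
      rw [List.map_cons, pv_cons, pv_cons, ih2]
      simp only [mv, pow_add, List.map_append, List.prod_append]
      ring

theorem same_iff {l l' : List ℕ} : Same l l' ↔ l.Perm l' := by
  have h : ∀ (l : List ℕ) x, l.countP (fun y => cd (y = x)) = l.count x := fun l x => by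
    rw [List.count]
    congr 1
    funext y
    rw [Bool.eq_iff_iff]; simp
  simp only [Same, h, List.perm_iff_count]
  refine ⟨fun H x => ?_, fun H x _ => H x⟩
  by_cases hx : x ∈ l ++ l'
  · exact H x hx
  · rw [List.mem_append, not_or] at hx
    rw [List.count_eq_zero_of_not_mem hx.1, List.count_eq_zero_of_not_mem hx.2]

/-- exponent vector -/
noncomputable def tf (l : List ℕ) : ℕ →₀ ℕ := (l.map fun x => Finsupp.single x 1).sum

theorem tf_apply (l : List ℕ) (x : ℕ) : tf l x = l.count x := by
  induction l with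
  | nil => simp [tf]
  | cons y l ih =>
    have : tf (y :: l) = Finsupp.single y 1 + tf l := by simp [tf]
    rw [this, Finsupp.add_apply, ih, List.count_cons, Finsupp.single_apply]
    by_cases h : y = x <;> simp [h, add_comm]

theorem tf_eq {l l' : List ℕ} : tf l = tf l' ↔ Same l l' := by
  rw [same_iff, List.perm_iff_count, Finsupp.ext_iff]
  simp only [tf_apply]

theorem prod_X {R : Type} [CommRing R] (l : List ℕ) :
    (l.map (X : ℕ → MvPolynomial ℕ R)).prod = monomial (tf l) 1 := by
  induction l with
  | nil => simp [tf]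
  | cons y l ih =>
    have : tf (y :: l) = Finsupp.single y 1 + tf l := by simp [tf]
    rw [List.map_cons, List.prod_cons, ih, this, X, monomial_mul, one_mul]

open Classical in
theorem co_eq (p : Po) (l : List ℕ) :
    (p.map fun m => if Same m.2 l then I ^ m.1 else 0).sum =
      ((cnt p l 0 : ℝ) - cnt p l 2 : ℝ) + ((cnt p l 1 : ℝ) - cnt p l 3 : ℝ) * I := by
  induction p with
  | nil => simp [cnt]
  | cons m p ih =>
    rw [List.map_cons, List.sum_cons, ih]
    simp only [cnt, List.countP_cons, cd_true]
    by_cases h : Same m.2 l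
    · rw [Complex.I_pow_eq_pow_mod m.1]
      have : m.1 % 4 = 0 ∨ m.1 % 4 = 1 ∨ m.1 % 4 = 2 ∨ m.1 % 4 = 3 := by omega
      rcases this with h4 | h4 | h4 | h4 <;> simp [h, h4] <;> ring
    · simp [h]

/-- the coefficient ring -/
abbrev R0 := Algebra.adjoin ℤ ({I} : Set ℂ)

theorem pv_eq_zero {v : ℕ → ℂ} (hv : AlgebraicIndependent R0 v) (p : Po) : pv v p = 0 ↔ Z p := by
  classical
  let ι : R0 := ⟨I, Algebra.subset_adjoin rfl⟩
  let P : Po → MvPolynomial ℕ R0 := fun p => (p.map fun m => C (ι ^ m.1) * (m.2.map X).prod).sum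
  have h1 : ∀ p, aeval v (P p) = pv v p := fun p => by
    simp only [P, pv, map_list_sum, List.map_map]
    congr 1
    refine List.map_congr_left fun m _ => ?_
    simp [mv, map_list_prod, ι, Function.comp_def]
  have h2 : ∀ p d, ((coeff d (P p) : R0) : ℂ) =
      (p.map fun m => if tf m.2 = d then I ^ m.1 else 0).sum := fun p d => by
    induction p with
    | nil => simp [P]
    | cons m p ih =>
      have : P (m :: p) = C (ι ^ m.1) * (m.2.map X).prod + P p := by simp [P]
      rw [this, coeff_add, List.map_cons, List.sum_cons, ← ih, prod_X, C_mul_monomial,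
        coeff_monomial]
      split_ifs <;> simp [ι]
  have h3 : pv v p = 0 ↔ P p = 0 := by
    rw [← h1]
    exact ⟨fun h => hv (h.trans (map_zero _).symm), fun h => by rw [h, map_zero]⟩
  have h4 : ∀ l, coeff (tf l) (P p) = 0 ↔ cnt p l 0 = cnt p l 2 ∧ cnt p l 1 = cnt p l 3 := by
    intro l
    rw [← ZeroMemClass.coe_eq_zero, h2]
    simp only [tf_eq]
    rw [co_eq, Complex.ext_iff]
    simp [sub_eq_zero]
  rw [h3]
  constructor
  · intro h m _
    rw [← h4, h, coeff_zero]
  · intro h
    ext d
    by_cases hd : ∃ m ∈ p, tf m.2 = d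
    · obtain ⟨m, hm, rfl⟩ := hd
      rw [(h4 _).2 (h m hm), coeff_zero]
    · rw [h2, coeff_zero, ZeroMemClass.coe_zero]
      refine List.sum_eq_zero fun x hx => ?_
      obtain ⟨m, hm, rfl⟩ := List.mem_map.1 hx
      rw [if_neg fun h => hd ⟨m, hm, h⟩]

end Pool.Agent.H.MP_5ae901_lc
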