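import Pool.Agent.H.MP_5ae901_lc.Pres
import Pool.Agent.H.MP_5ae901_lc.Gen
import Pool.Agent.H.MP_5ae901_lc.Poly

namespace Pool.Agent.H.MP_5ae901_lc

open Pool.Agent.Lib.PR Complex Nat.Partrec

attribute [local irreducible] Primrec Computable

open Classical in
/-- sum of fraction codes -/
noncomputable def fadd (c d : Fr) : Fr :=
  if Z c.2 then d else if Z d.2 then c else (pmul c.1 d.2 ++ pmul d.1 c.2, pmul c.2 d.2)
/-- product of fraction codes -/
def fmul (c d : Fr) : Fr := (pmul c.1 d.1, pmul c.2 d.2)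
/-- negation of a fraction code -/
def fneg (c : Fr) : Fr := (pneg c.1, c.2)
/-- inverse of a fraction code -/
def finv (c : Fr) : Fr := (c.2, c.1)
/-- the code of one -/
def one : Po := [(0, [])]
/-- codes of the iterates of the quadratic map -/
def up (n : ℕ) : Po := (fun p => pmul p p ++ List.replicate 6 (2, []))^[n] [(0, [0])]
/-- bounded diagonal evaluation -/
def ev (j : ℕ) : Option ℕ :=
  Code.evaln j.unpair.2 (Denumerable.ofNat Code j.unpair.1) j.unpair.1
/-- code of the polynomial made positive at stage `j` -/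
def fp (j : ℕ) : Po :=
  if ev j = some 0 then up (2 * j.unpair.1) else
    if ev j = some 1 then pneg (up (2 * j.unpair.1)) else one
/-- value of the polynomial made positive at stage `j` -/
def fr (j : ℕ) (x : ℝ) : ℝ :=
  if ev j = some 0 then qm^[2 * j.unpair.1] x else
    if ev j = some 1 then - qm^[2 * j.unpair.1] x else 1
/-- conjugate of a variable -/
def cvar (x : ℕ) : Fr := if x = 0 then ([(0, [0])], one) else (fp (x - 1), [(0, [x])])
/-- conjugate of a monomial -/
def cmo (m : Mo) : Fr := m.2.foldr (fun x acc => fmul (cvar x) acc) ([(3 * m.1, [])], one)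
/-- conjugate of a polynomial -/
noncomputable def cpo (p : Po) : Fr := p.foldr (fun m acc => fadd (cmo m) acc) ([], one)
/-- real part of a fraction -/
noncomputable def fre (c : Fr) : Fr :=
  fmul (fadd c (fmul (cpo c.1) (finv (cpo c.2)))) (one, one ++ one)

section
variable {α : Type} [Primcodable α]
@[fun_prop] theorem p_fadd {f g : α → Fr} (hf : Primrec f) (hg : Primrec g) :
    Primrec fun a => fadd (f a) (g a) := by unfold fadd; fun_prop
@[fun_prop] theorem p_fmul {f g : α → Fr} (hf : Primrec f) (hg : Primrec g) :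
    Primrec fun a => fmul (f a) (g a) := by unfold fmul; fun_prop
@[fun_prop] theorem p_fneg {f : α → Fr} (hf : Primrec f) :
    Primrec fun a => fneg (f a) := by unfold fneg; fun_prop
@[fun_prop] theorem p_finv {f : α → Fr} (hf : Primrec f) :
    Primrec fun a => finv (f a) := by unfold finv; fun_prop
@[fun_prop] theorem p_up {f : α → ℕ} (hf : Primrec f) :
    Primrec fun a => up (f a) := by unfold up; fun_prop
@[fun_prop] theorem p_ev {f : α → ℕ} (hf : Primrec f) :
    Primrec fun a => ev (f a) := by unfold ev; fun_prop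
@[fun_prop] theorem p_fp {f : α → ℕ} (hf : Primrec f) :
    Primrec fun a => fp (f a) := by unfold fp; fun_prop
@[fun_prop] theorem p_cvar {f : α → ℕ} (hf : Primrec f) :
    Primrec fun a => cvar (f a) := by unfold cvar; fun_prop
@[fun_prop] theorem p_cmo {f : α → Mo} (hf : Primrec f) :
    Primrec fun a => cmo (f a) := by unfold cmo; fun_prop
@[fun_prop] theorem p_cpo {f : α → Po} (hf : Primrec f) :
    Primrec fun a => cpo (f a) := by unfold cpo; fun_prop
@[fun_prop] theorem p_fre {f : α → Fr} (hf : Primrec f) :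
    Primrec fun a => fre (f a) := by unfold fre; fun_prop
end

/-- the data of a generic point -/
structure Good (v : ℕ → ℂ) (x : ℝ) : Prop where
  ind : AlgebraicIndependent R0 v
  zero : v 0 = x
  circ : ∀ j, v (j + 1) * (starRingEnd ℂ) (v (j + 1)) = fr j x
  pos : ∀ j, 0 < fr j x

theorem exists_good : ∃ v x, Good v x := by
  have : Countable R0 := countable_adjoin (Set.countable_singleton _)
  let δ : ℕ → Bool := fun n => cd (0 ∈ (Denumerable.ofNat Code n).eval n)
  have hpos : ∀ x : ℝ, (∀ n, 1 ≤ sg (δ n) * qm^[2 * n] x) → ∀ j, 0 < fr j x := fun x hx j => by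
    have h := hx j.unpair.1
    unfold fr
    split_ifs with h0 h1
    · have : δ j.unpair.1 = true := cd_true.2 (Code.evaln_sound h0)
      simp only [this, sg, if_true] at h
      linarith
    · have : δ j.unpair.1 = false := by
        rw [← Bool.not_eq_true, cd_true]
        intro h2
        exact absurd (Part.mem_unique h2 (Code.evaln_sound h1)) (by norm_num)
      simp only [this, sg, Bool.false_eq_true, if_false] at h
      linarith
    · exact one_pos
  obtain ⟨v, h1, ⟨x, hx, h2⟩, h3⟩ := exists_indep (R := R0) Subtype.val_injective _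
    (fun j z => {w | w * (starRingEnd ℂ) w = fr j z.re}) (uncountable_sign δ) (by
      rintro j _ ⟨x, rfl, hx⟩
      exact uncountable_circle (hpos x hx j))
  exact ⟨v, x, h1, hx, fun j => by simpa [hx] using h3 j, hpos x h2⟩

variable {v : ℕ → ℂ} {x : ℝ}

@[simp] theorem pv_one : pv v one = 1 := by simp [one, mv]
@[simp] theorem fv_mul (c d : Fr) : fv v (fmul c d) = fv v c * fv v d := by
  simp [fv, fmul, div_mul_div_comm]
@[simp] theorem fv_neg (c : Fr) : fv v (fneg c) = - fv v c := by simp [fv, fneg, neg_div]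
@[simp] theorem fv_inv (c : Fr) : fv v (finv c) = (fv v c)⁻¹ := by simp [fv, finv]

theorem Good.add (h : Good v x) (c d : Fr) : fv v (fadd c d) = fv v c + fv v d := by
  unfold fadd
  simp only [← pv_eq_zero h.ind]
  split_ifs with h1 h2
  · simp [fv, h1]
  · simp [fv, h2]
  · simp only [fv, pv_append, pv_mul]
    field_simp

theorem Good.up (h : Good v x) (n : ℕ) : pv v (up n) = (qm^[n] x : ℝ) := by
  induction n with
  | zero => simp [Pool.Agent.H.MP_5ae901_lc.up, mv, h.zero]
  | succ n ih =>
    unfold Pool.Agent.H.MP_5ae901_lc.up at ih ⊢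
    rw [Function.iterate_succ_apply', Function.iterate_succ_apply', pv_append, pv_mul, ih]
    simp [qm, mv, List.replicate]
    ring

theorem Good.fp (h : Good v x) (j : ℕ) : pv v (fp j) = fr j x := by
  unfold Pool.Agent.H.MP_5ae901_lc.fp fr
  split_ifs <;> simp [h.up]

theorem Good.cvar (h : Good v x) (y : ℕ) : fv v (cvar y) = (starRingEnd ℂ) (v y) := by
  unfold Pool.Agent.H.MP_5ae901_lc.cvar
  cases y with
  | zero => simp [fv, mv, h.zero]
  | succ j =>
    have h1 := h.circ j
    have h2 : v (j + 1) ≠ 0 := fun h0 => by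
      rw [h0, zero_mul] at h1
      exact (h.pos j).ne (by exact_mod_cast h1)
    simp only [Nat.add_eq_zero_iff, one_ne_zero, and_false, if_false, fv, Nat.add_sub_cancel, h.fp,
      ← h1]
    simp [mv, h2]

theorem Good.cmo (h : Good v x) (m : Mo) : fv v (cmo m) = (starRingEnd ℂ) (mv v m) := by
  obtain ⟨k, l⟩ := m
  unfold Pool.Agent.H.MP_5ae901_lc.cmo
  induction l with
  | nil => simp [fv, mv, pow_mul]
  | cons y l ih =>
    simp only [List.foldr_cons, fv_mul, h.cvar] at ih ⊢
    rw [ih]
    simp only [mv, List.map_cons, List.prod_cons, map_mul]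
    ring

theorem Good.cpo (h : Good v x) (p : Po) : fv v (cpo p) = (starRingEnd ℂ) (pv v p) := by
  unfold Pool.Agent.H.MP_5ae901_lc.cpo
  induction p with
  | nil => simp [fv]
  | cons m p ih => simp only [List.foldr_cons, h.add, h.cmo, ih, pv_cons, map_add]

theorem Good.re (h : Good v x) (c : Fr) : fv v (fre c) = (fv v c).re := by
  unfold fre
  rw [fv_mul, h.add, fv_mul, fv_inv, h.cpo, h.cpo, Complex.re_eq_add_conj]
  simp only [fv, pv_append, pv_one, map_div₀]
  ring

/-- the field -/
def Good.F (h : Good v x) : Subfield ℝ where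
  carrier := {y | ∃ c, fv v c = y}
  mul_mem' := by
    rintro a b ⟨c, hc⟩ ⟨d, hd⟩
    exact ⟨fmul c d, by simp [hc, hd]⟩
  one_mem' := ⟨(one, one), by simp [fv]⟩
  add_mem' := by
    rintro a b ⟨c, hc⟩ ⟨d, hd⟩
    exact ⟨fadd c d, by simp [h.add, hc, hd]⟩
  zero_mem' := ⟨([], one), by simp [fv]⟩
  neg_mem' := by
    rintro a ⟨c, hc⟩
    exact ⟨fneg c, by simp [hc]⟩
  inv_mem' := by
    rintro a ⟨c, hc⟩
    exact ⟨finv c, by simp [hc]⟩

/-- the numbering -/
noncomputable def Good.nu (h : Good v x) (c : Fr) : h.F := ⟨(fv v c).re, fre c, h.re c⟩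

theorem Good.comp (h : Good v x) : ∃ e : ℕ ≃ h.F,
    Computable₂ (fun a b : ℕ => e.symm (e a + e b)) ∧
    Computable₂ (fun a b : ℕ => e.symm (e a * e b)) ∧
    Computable (fun a : ℕ => e.symm (-(e a))) ∧
    Computable (fun a : ℕ => e.symm ((e a)⁻¹)) := by
  have hs : Function.Surjective h.nu := by
    rintro ⟨y, c, hc⟩
    exact ⟨c, Subtype.ext (by simp [Good.nu, hc])⟩
  have heq : Primrec fun p : Fr × Fr => cd (h.nu p.1 = h.nu p.2) := by
    have : Primrec fun p : Fr × Fr => cd (Z (fadd (fre p.1) (fneg (fre p.2))).1 ∨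
      Z (fadd (fre p.1) (fneg (fre p.2))).2) := by fun_prop
    refine this.of_eq fun p => ?_
    congr 1
    simp only [← pv_eq_zero h.ind, ← div_eq_zero_iff]
    change (fv v _ = 0) = _
    rw [h.add, fv_neg, h.re, h.re, ← sub_eq_add_neg, sub_eq_zero, Complex.ofReal_inj,
      Subtype.ext_iff]
    rfl
  obtain ⟨e, r, i, hr, hi, h1, h2⟩ := pres ([], []) h.nu hs heq
  refine ⟨e, ?_, ?_, ?_, ?_⟩
  · have : Computable fun p : ℕ × ℕ => i (fadd (r p.1) (r p.2)) :=
      hi.comp ((p_fadd Primrec.fst Primrec.snd).to_comp.comp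
        ((hr.comp Computable.fst).pair (hr.comp Computable.snd)))
    refine this.of_eq fun p => ?_
    beta_reduce
    rw [← h2, h1, h1]
    congr 1
    exact Subtype.ext (by simp [Good.nu, h.add])
  · have : Computable fun p : ℕ × ℕ => i (fmul (fre (r p.1)) (fre (r p.2))) :=
      hi.comp ((p_fmul (p_fre Primrec.fst) (p_fre Primrec.snd)).to_comp.comp
        ((hr.comp Computable.fst).pair (hr.comp Computable.snd)))
    refine this.of_eq fun p => ?_
    beta_reduce
    rw [← h2, h1, h1]
    congr 1
    exact Subtype.ext (by simp [Good.nu, h.re])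
  · have : Computable fun p : ℕ => i (fneg (r p)) :=
      hi.comp ((p_fneg Primrec.id).to_comp.comp hr)
    refine this.of_eq fun p => ?_
    rw [← h2, h1]
    congr 1
    exact Subtype.ext (by simp [Good.nu])
  · have : Computable fun p : ℕ => i (finv (fre (r p))) :=
      hi.comp ((p_finv (p_fre Primrec.id)).to_comp.comp hr)
    refine this.of_eq fun p => ?_
    rw [← h2, h1]
    congr 1
    exact Subtype.ext (by simp [Good.nu, h.re, ← Complex.ofReal_inv])

theorem Good.noord (h : Good v x) (e : ℕ ≃ h.F)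
    (ha : Computable₂ (fun a b : ℕ => e.symm (e a + e b)))
    (hm : Computable₂ (fun a b : ℕ => e.symm (e a * e b))) (P : Set h.F)
    (hP : ComputablePred (fun a : ℕ => e a ∈ P)) (h0 : (0 : h.F) ∉ P)
    (h1 : ∀ x y, x ∈ P → y ∈ P → x + y ∈ P) (h2 : ∀ x y, x ∈ P → y ∈ P → x * y ∈ P)
    (h3 : ∀ x, x ≠ 0 → x ∈ P ∨ -x ∈ P) : False := by
  classical
  have hsq : ∀ y : h.F, y ≠ 0 → y * y ∈ P := fun y hy => by
    rcases h3 y hy with h4 | h4
    · exact h2 _ _ h4 h4
    · simpa using h2 _ _ h4 h4
  have hfr : ∀ j, ∀ y : h.F, (y : ℝ) = fr j x → y ∈ P := fun j y hy => by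
    let a := h.nu ([(0, [j + 1])], one)
    let b := h.nu ([(3, [j + 1])], one)
    have hab : y = a * a + b * b := by
      apply Subtype.ext
      have := h.circ j
      rw [Complex.mul_conj, Complex.ofReal_inj, Complex.normSq_apply] at this
      simp [a, b, Good.nu, fv, mv, hy, this]
    have hy0 : y ≠ 0 := fun h4 => (h.pos j).ne (by rw [← hy, h4]; rfl)
    by_cases ha0 : a = 0
    · rw [hab, ha0, mul_zero, zero_add] at hy0 ⊢
      exact hsq b fun h5 => hy0 (by rw [h5, mul_zero])
    by_cases hb0 : b = 0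
    · rw [hab, hb0, mul_zero, add_zero]
      exact hsq a ha0
    rw [hab]
    exact h1 _ _ (hsq a ha0) (hsq b hb0)
  let t := e.symm (h.nu ([(0, [0])], one))
  let s := e.symm (-6)
  let u : ℕ → ℕ := fun n => Nat.rec t
    (fun _ a => e.symm (e (e.symm (e a * e a)) + e s)) n
  have hu : Computable u :=
    Computable.nat_rec (f := fun n => n) (g := fun _ => t)
      (h := fun _ p => e.symm (e (e.symm (e p.2 * e p.2)) + e s)) Computable.id (.const _)
      (ha.comp (hm.comp (Computable.snd.comp Computable.snd) (Computable.snd.comp Computable.snd))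
        (.const s))
  have hu2 : ∀ n, (e (u n) : ℝ) = qm^[n] x := fun n => by
    induction n with
    | zero => simp [u, t, Good.nu, fv, mv, h.zero]
    | succ n ih =>
      rw [Function.iterate_succ_apply', ← ih]
      have h6 : ((6 : h.F) : ℝ) = 6 := rfl
      simp [u, s, qm, h6, sub_eq_add_neg]
  have hg : Computable fun n => cond (decide (e (u (2 * n)) ∈ P)) 1 0 :=
    Computable.cond (hP.decide.comp (hu.comp
      (Primrec.nat_mul.comp (.const 2) .id).to_comp)) (.const 1) (.const 0)
  obtain ⟨c, hc⟩ := Code.exists_code.1 (Partrec.nat_iff.1 hg.partrec)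
  let n := Encodable.encode c
  have hcn : Denumerable.ofNat Code n = c := Denumerable.ofNat_encode c
  obtain ⟨k, hk⟩ := Code.evaln_complete.1
    (show cond (decide (e (u (2 * n)) ∈ P)) 1 0 ∈ c.eval n by rw [hc]; exact Part.mem_some _)
  have hev : ev (Nat.pair n k) = some (cond (decide (e (u (2 * n)) ∈ P)) 1 0) := by
    simpa [ev, hcn] using hk
  by_cases hn : e (u (2 * n)) ∈ P
  · have := hfr (Nat.pair n k) (- e (u (2 * n))) (by simp [fr, hev, hn, hu2])
    exact h0 (by simpa using h1 _ _ hn this)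
  · exact hn (hfr (Nat.pair n k) _ (by simp [fr, hev, hn, hu2]))

end Pool.Agent.H.MP_5ae901_lc
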