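import Pool.Agent.Lib.helper13.PR

namespace Pool.Agent.H.MP_5ae901_lc

open Pool.Agent.Lib.PR

attribute [local irreducible] Primrec Computable

theorem c_find {α : Type} [Primcodable α] {P : α → ℕ → Prop}
    (hP : Primrec fun p : α × ℕ => cd (P p.1 p.2)) (hex : ∀ a, ∃ n, P a n) :
    ∃ f : α → ℕ, Computable f ∧ ∀ a, P a (f a) ∧ ∀ m < f a, ¬ P a m := by
  classical
  have h1 : ComputablePred fun p : α × ℕ => P p.1 p.2 := (pred hP).computablePred
  exact ⟨fun a => Nat.find (hex a), Computable.find h1 hex, fun a =>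
    ⟨Nat.find_spec (hex a), fun m hm => Nat.find_min (hex a) hm⟩⟩

/-- a numbering with decidable equality of an infinite type yields a bijective numbering -/
theorem pres {F α : Type} [Infinite F] [Primcodable α] (d : α) (ν : α → F) (hs : Function.Surjective ν)
    (heq : Primrec fun p : α × α => cd (ν p.1 = ν p.2)) :
    ∃ e : ℕ ≃ F, ∃ r : ℕ → α, ∃ i : α → ℕ, Computable r ∧ Computable i ∧
      (∀ n, e n = ν (r n)) ∧ ∀ a, e.symm (ν a) = i a := by
  classical
  let o : ℕ → α := fun n => (Encodable.decode (α := α) n).getD d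
  have ho : Primrec o := by unfold o; fun_prop
  let μ : ℕ → F := fun n => ν (o n)
  have hμ : Primrec fun p : ℕ × ℕ => cd (μ p.1 = μ p.2) :=
    heq.comp (g := fun p : ℕ × ℕ => (o p.1, o p.2))
      (by fun_prop)
  let N : ℕ → Prop := fun n => ∀ m < n, ¬ μ m = μ n
  have hN : Primrec fun n => cd (N n) :=
    p_forall_lt (P := fun n m => ¬ μ m = μ n)
      (p_dnot (hμ.comp (g := fun p : ℕ × ℕ => (p.2, p.1)) (by fun_prop))) (by fun_prop)
  have hinj : ∀ a b, N a → N b → μ a = μ b → a = b := fun a b ha hb h => by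
    rcases lt_trichotomy a b with h1 | h1 | h1
    · exact absurd h (hb a h1)
    · exact h1
    · exact absurd h.symm (ha b h1)
  obtain ⟨l, hl, hl2⟩ := c_find (P := fun (a : α) m => μ m = ν a)
    (heq.comp (g := fun p : α × ℕ => (o p.2, p.1)) (by fun_prop))
    (fun a => ⟨Encodable.encode a, by simp [μ, o]⟩)
  have hlN : ∀ a, N (l a) := fun a m hm h => (hl2 a).2 m hm (h.trans (hl2 a).1)
  have hinf : {n | N n}.Infinite := fun hf => by
    have : (Set.univ : Set F) ⊆ μ '' {n | N n} := fun y _ => by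
      obtain ⟨a, rfl⟩ := hs y
      exact ⟨l a, hlN a, (hl2 a).1⟩
    exact Set.infinite_univ ((hf.image μ).subset this)
  have hc : Primrec fun n => Nat.count N n := by
    have := p_card (α := ℕ) (P := fun _ m => N m) (i := fun _ => inferInstance) (m := fun n => n)
      (hN.comp (g := fun p : ℕ × ℕ => p.2) (by fun_prop)) (by fun_prop)
    exact this.of_eq fun n => (Nat.count_eq_card_filter_range N n).symm
  obtain ⟨t, ht, ht2⟩ := c_find (P := fun (n : ℕ) m => N m ∧ Nat.count N m = n)
    (p_dand (hN.comp (g := fun p : ℕ × ℕ => p.2) (by fun_prop))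
      (p_eq (hc.comp (g := fun p : ℕ × ℕ => p.2) (by fun_prop)) (by fun_prop)))
    (fun n => ⟨Nat.nth N n, Nat.nth_mem_of_infinite hinf n, Nat.count_nth_of_infinite hinf n⟩)
  have hb : Function.Bijective fun n => μ (t n) := by
    constructor
    · intro a b h
      have := hinj _ _ (ht2 a).1.1 (ht2 b).1.1 h
      rw [← (ht2 a).1.2, ← (ht2 b).1.2, this]
    · intro y
      obtain ⟨a, rfl⟩ := hs y
      refine ⟨Nat.count N (l a), ?_⟩
      have h1 := (ht2 (Nat.count N (l a))).1
      have := Nat.count_injective h1.1 (hlN a) h1.2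
      simp only [this]
      exact (hl2 a).1
  refine ⟨Equiv.ofBijective _ hb, fun n => o (t n), fun a => Nat.count N (l a),
    ho.to_comp.comp ht, hc.to_comp.comp hl, fun n => rfl, fun a => ?_⟩
  rw [Equiv.symm_apply_eq]
  have h1 := (ht2 (Nat.count N (l a))).1
  have := Nat.count_injective h1.1 (hlN a) h1.2
  simp only [Equiv.ofBijective_apply, this]
  exact (hl2 a).1.symm

end Pool.Agent.H.MP_5ae901_lc
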